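import Pool.Agent.Gen.F5.X123D2Cm3.S000
import Pool.Agent.Gen.F5.X123D2Cm3.S001

set_option autoImplicit false
set_option maxRecDepth 100000

namespace Pool.Agent.Gen.F5.X123D2Cm3

open Pool.Agent.Helper72.F5

def n0 : Cl (O (nat_lit 3)) (R (nat_lit 10449))
    (p (nat_lit 0x200004) (nat_lit 0) (p (nat_lit 0x109) (nat_lit 1) (p (nat_lit 0x89) (nat_lit 1) (p (nat_lit 0xc9) (nat_lit 1) (p (nat_lit 0xc1) (nat_lit 0) (p (nat_lit 0x119) (nat_lit 1) (p (nat_lit 0xd1) (nat_lit 0) (p (nat_lit 0x81) (nat_lit 0) (p (nat_lit 0x41) (nat_lit 1) (p (nat_lit 0x8a0b098a889a) (nat_lit 0) (p (nat_lit 0x98a890a081a) (nat_lit 0) (p (nat_lit 0x890a0888079a) (nat_lit 0) (p (nat_lit 0x8898807871a) (nat_lit 0) (p (nat_lit 0x80000800080788868a) (nat_lit 0) (p (nat_lit 0x80000800078706860a) (nat_lit 0) (p (nat_lit 0x8806878582) (nat_lit 0) (p (nat_lit 0x786070502) (nat_lit 0) (p (nat_lit 0x8705850482) (nat_lit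 0) (p (nat_lit 0x685048402) (nat_lit 0) (p (nat_lit 0x160014) (nat_lit 0) (p (nat_lit 0x60592) (nat_lit 0) (p (nat_lit 0x48512) (nat_lit 0) (p (nat_lit 0x50392) (nat_lit 0) (p (nat_lit 0x38312) (nat_lit 0) (p (nat_lit 0x40212) (nat_lit 0) (p (nat_lit 0x28192) (nat_lit 0) (p (nat_lit 0x30092) (nat_lit 0) (p (nat_lit 0x18012) (nat_lit 0) pn)))))))))))))))))))))))))))) :=
  Cl.node (nat_lit 0x20000c) (nat_lit 2) (by decide +kernel) (ClAll.succ (ClAll.succ ClAll.zero s31) s32)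

def n1 : Cl (O (nat_lit 3)) (R (nat_lit 10449))
    (p (nat_lit 0x109) (nat_lit 1) (p (nat_lit 0x89) (nat_lit 1) (p (nat_lit 0xc9) (nat_lit 1) (p (nat_lit 0xc1) (nat_lit 0) (p (nat_lit 0x119) (nat_lit 1) (p (nat_lit 0xd1) (nat_lit 0) (p (nat_lit 0x81) (nat_lit 0) (p (nat_lit 0x41) (nat_lit 1) (p (nat_lit 0x8a0b098a889a) (nat_lit 0) (p (nat_lit 0x98a890a081a) (nat_lit 0) (p (nat_lit 0x890a0888079a) (nat_lit 0) (p (nat_lit 0x8898807871a) (nat_lit 0) (p (nat_lit 0x80000800080788868a) (nat_lit 0) (p (nat_lit 0x80000800078706860a) (nat_lit 0) (p (nat_lit 0x8806878582) (nat_lit 0) (p (nat_lit 0x786070502) (nat_lit 0) (p (nat_lit 0x8705850482) (nat_lit 0) (p (nat_lit 0x685048402) (nat_lit 0) (p (nat_lit 0x160014) (nat_lit 0) (p (nat_lit 0x60592) (nat_lit 0) (p (nat_lit 0x48512) (nat_lit 0) (p (nat_lit 0x50392) (nat_lit 0) (p (nat_lit 0x38312) (nat_lit 0) (p (nat_lit 0x40212) (nat_lit 0)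 (p (nat_lit 0x28192) (nat_lit 0) (p (nat_lit 0x30092) (nat_lit 0) (p (nat_lit 0x18012) (nat_lit 0) pn))))))))))))))))))))))))))) :=
  Cl.node (nat_lit 0x200004) (nat_lit 2) (by decide +kernel) (ClAll.succ (ClAll.succ ClAll.zero n0) s33)

def n2 : Cl (O (nat_lit 3)) (R (nat_lit 10449))
    (p (nat_lit 0x101) (nat_lit 0) (p (nat_lit 0x81) (nat_lit 1) (p (nat_lit 0xc1) (nat_lit 1) (p (nat_lit 0x119) (nat_lit 1) (p (nat_lit 0xd1) (nat_lit 0) (p (nat_lit 0x89) (nat_lit 0) (p (nat_lit 0x41) (nat_lit 0) (p (nat_lit 0x8a0b098a889a) (nat_lit 0) (p (nat_lit 0x98a890a081a) (nat_lit 0) (p (nat_lit 0x890a0888079a) (nat_lit 0) (p (nat_lit 0x8898807871a) (nat_lit 0) (p (nat_lit 0x80000800080788868a) (nat_lit 0) (p (nat_lit 0x80000800078706860a) (nat_lit 0) (p (nat_lit 0x8806878582) (nat_lit 0) (p (nat_lit 0x786070502) (nat_lit 0) (p (nat_lit 0x8705850482) (nat_lit 0) (p (nat_lit 0x685048402) (nat_lit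 0) (p (nat_lit 0x160014) (nat_lit 0) (p (nat_lit 0x60592) (nat_lit 0) (p (nat_lit 0x48512) (nat_lit 0) (p (nat_lit 0x50392) (nat_lit 0) (p (nat_lit 0x38312) (nat_lit 0) (p (nat_lit 0x40212) (nat_lit 0) (p (nat_lit 0x28192) (nat_lit 0) (p (nat_lit 0x30092) (nat_lit 0) (p (nat_lit 0x18012) (nat_lit 0) pn)))))))))))))))))))))))))) :=
  Cl.node (nat_lit 0x109) (nat_lit 2) (by decide +kernel) (ClAll.succ (ClAll.succ ClAll.zero s8) s9)

def n3 : Cl (O (nat_lit 3)) (R (nat_lit 10449))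
    (p (nat_lit 0x101) (nat_lit 1) (p (nat_lit 0x81) (nat_lit 1) (p (nat_lit 0xc1) (nat_lit 1) (p (nat_lit 0x119) (nat_lit 1) (p (nat_lit 0xd1) (nat_lit 0) (p (nat_lit 0x89) (nat_lit 0) (p (nat_lit 0x41) (nat_lit 0) (p (nat_lit 0x8a0b098a889a) (nat_lit 0) (p (nat_lit 0x98a890a081a) (nat_lit 0) (p (nat_lit 0x890a0888079a) (nat_lit 0) (p (nat_lit 0x8898807871a) (nat_lit 0) (p (nat_lit 0x80000800080788868a) (nat_lit 0) (p (nat_lit 0x80000800078706860a) (nat_lit 0) (p (nat_lit 0x8806878582) (nat_lit 0) (p (nat_lit 0x786070502) (nat_lit 0) (p (nat_lit 0x8705850482) (nat_lit 0) (p (nat_lit 0x685048402) (nat_lit 0) (p (nat_lit 0x160014) (nat_lit 0) (p (nat_lit 0x60592) (nat_lit 0) (p (nat_lit 0x48512) (nat_lit 0) (p (nat_lit 0x50392) (nat_lit 0) (p (nat_lit 0x38312) (nat_lit 0) (p (nat_lit 0x40212) (nat_lit 0) (p (nat_lit 0x28192) (nat_lit 0) (p (nat_lit 0x30092) (nat_lit 0) (p (nat_lit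 0x18012) (nat_lit 0) pn)))))))))))))))))))))))))) :=
  Cl.node (nat_lit 0x200004) (nat_lit 2) (by decide +kernel) (ClAll.succ (ClAll.succ ClAll.zero s10) s11)

def n4 : Cl (O (nat_lit 3)) (R (nat_lit 10449))
    (p (nat_lit 0x89) (nat_lit 1) (p (nat_lit 0xc9) (nat_lit 1) (p (nat_lit 0xc1) (nat_lit 0) (p (nat_lit 0x119) (nat_lit 1) (p (nat_lit 0xd1) (nat_lit 0) (p (nat_lit 0x81) (nat_lit 0) (p (nat_lit 0x41) (nat_lit 1) (p (nat_lit 0x8a0b098a889a) (nat_lit 0) (p (nat_lit 0x98a890a081a) (nat_lit 0) (p (nat_lit 0x890a0888079a) (nat_lit 0) (p (nat_lit 0x8898807871a) (nat_lit 0) (p (nat_lit 0x80000800080788868a) (nat_lit 0) (p (nat_lit 0x80000800078706860a) (nat_lit 0) (p (nat_lit 0x8806878582) (nat_lit 0) (p (nat_lit 0x786070502) (nat_lit 0) (p (nat_lit 0x8705850482) (nat_lit 0) (p (nat_lit 0x685048402) (nat_lit 0) (p (nat_lit 0x160014) (nat_lit 0) (p (nat_lit 0x60592) (nat_lit 0) (p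 (nat_lit 0x48512) (nat_lit 0) (p (nat_lit 0x50392) (nat_lit 0) (p (nat_lit 0x38312) (nat_lit 0) (p (nat_lit 0x40212) (nat_lit 0) (p (nat_lit 0x28192) (nat_lit 0) (p (nat_lit 0x30092) (nat_lit 0) (p (nat_lit 0x18012) (nat_lit 0) pn)))))))))))))))))))))))))) :=
  Cl.node (nat_lit 0x109) (nat_lit 2) (by decide +kernel) (ClAll.succ (ClAll.succ ClAll.zero s30) n1)

def n5 : Cl (O (nat_lit 3)) (R (nat_lit 10449))
    (p (nat_lit 0x89) (nat_lit 1) (p (nat_lit 0x101) (nat_lit 1) (p (nat_lit 0xc1) (nat_lit 1) (p (nat_lit 0x119) (nat_lit 1) (p (nat_lit 0xd1) (nat_lit 0) (p (nat_lit 0x81) (nat_lit 0) (p (nat_lit 0x41) (nat_lit 1) (p (nat_lit 0x8a0b098a889a) (nat_lit 0) (p (nat_lit 0x98a890a081a) (nat_lit 0) (p (nat_lit 0x890a0888079a) (nat_lit 0) (p (nat_lit 0x8898807871a) (nat_lit 0) (p (nat_lit 0x80000800080788868a) (nat_lit 0) (p (nat_lit 0x80000800078706860a) (nat_lit 0) (p (nat_lit 0x8806878582)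 (nat_lit 0) (p (nat_lit 0x786070502) (nat_lit 0) (p (nat_lit 0x8705850482) (nat_lit 0) (p (nat_lit 0x685048402) (nat_lit 0) (p (nat_lit 0x160014) (nat_lit 0) (p (nat_lit 0x60592) (nat_lit 0) (p (nat_lit 0x48512) (nat_lit 0) (p (nat_lit 0x50392) (nat_lit 0) (p (nat_lit 0x38312) (nat_lit 0) (p (nat_lit 0x40212) (nat_lit 0) (p (nat_lit 0x28192) (nat_lit 0) (p (nat_lit 0x30092) (nat_lit 0) (p (nat_lit 0x18012) (nat_lit 0) pn)))))))))))))))))))))))))) :=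
  Cl.node (nat_lit 0x200004) (nat_lit 2) (by decide +kernel) (ClAll.succ (ClAll.succ ClAll.zero s36) s37)

def n6 : Cl (O (nat_lit 3)) (R (nat_lit 10449))
    (p (nat_lit 0x111) (nat_lit 1) (p (nat_lit 0xd1) (nat_lit 1) (p (nat_lit 0xc9) (nat_lit 0) (p (nat_lit 0x119) (nat_lit 1) (p (nat_lit 0xc1) (nat_lit 0) (p (nat_lit 0x81) (nat_lit 1) (p (nat_lit 0x41) (nat_lit 1) (p (nat_lit 0x8a0b098a889a) (nat_lit 0) (p (nat_lit 0x98a890a081a) (nat_lit 0) (p (nat_lit 0x890a0888079a) (nat_lit 0) (p (nat_lit 0x8898807871a) (nat_lit 0) (p (nat_lit 0x80000800080788868a) (nat_lit 0) (p (nat_lit 0x80000800078706860a) (nat_lit 0) (p (nat_lit 0x8806878582) (nat_lit 0) (p (nat_lit 0x786070502) (nat_lit 0) (p (nat_lit 0x8705850482) (nat_lit 0) (p (nat_lit 0x685048402) (nat_lit 0) (p (nat_lit 0x160014) (nat_lit 0) (p (nat_lit 0x60592) (nat_lit 0) (p (nat_lit 0x48512) (nat_lit 0) (p (nat_lit 0x50392) (nat_lit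 0) (p (nat_lit 0x38312) (nat_lit 0) (p (nat_lit 0x40212) (nat_lit 0) (p (nat_lit 0x28192) (nat_lit 0) (p (nat_lit 0x30092) (nat_lit 0) (p (nat_lit 0x18012) (nat_lit 0) pn)))))))))))))))))))))))))) :=
  Cl.node (nat_lit 0x200004) (nat_lit 2) (by decide +kernel) (ClAll.succ (ClAll.succ ClAll.zero s44) s45)

def n7 : Cl (O (nat_lit 3)) (R (nat_lit 10449))
    (p (nat_lit 0x81) (nat_lit 0) (p (nat_lit 0x101) (nat_lit 1) (p (nat_lit 0x119) (nat_lit 0) (p (nat_lit 0xd1) (nat_lit 0) (p (nat_lit 0x89) (nat_lit 0) (p (nat_lit 0x41) (nat_lit 0) (p (nat_lit 0x8a0b098a889a) (nat_lit 0) (p (nat_lit 0x98a890a081a) (nat_lit 0) (p (nat_lit 0x890a0888079a) (nat_lit 0) (p (nat_lit 0x8898807871a) (nat_lit 0) (p (nat_lit 0x80000800080788868a) (nat_lit 0) (p (nat_lit 0x80000800078706860a) (nat_lit 0) (p (nat_lit 0x8806878582) (nat_lit 0) (p (nat_lit 0x786070502) (nat_lit 0) (p (nat_lit 0x8705850482) (nat_lit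 0) (p (nat_lit 0x685048402) (nat_lit 0) (p (nat_lit 0x160014) (nat_lit 0) (p (nat_lit 0x60592) (nat_lit 0) (p (nat_lit 0x48512) (nat_lit 0) (p (nat_lit 0x50392) (nat_lit 0) (p (nat_lit 0x38312) (nat_lit 0) (p (nat_lit 0x40212) (nat_lit 0) (p (nat_lit 0x28192) (nat_lit 0) (p (nat_lit 0x30092) (nat_lit 0) (p (nat_lit 0x18012) (nat_lit 0) pn))))))))))))))))))))))))) :=
  Cl.node (nat_lit 0xc9) (nat_lit 2) (by decide +kernel) (ClAll.succ (ClAll.succ ClAll.zero s1) s2)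

def n8 : Cl (O (nat_lit 3)) (R (nat_lit 10449))
    (p (nat_lit 0x81) (nat_lit 0) (p (nat_lit 0xc1) (nat_lit 1) (p (nat_lit 0x119) (nat_lit 1) (p (nat_lit 0xd1) (nat_lit 0) (p (nat_lit 0x89) (nat_lit 0) (p (nat_lit 0x41) (nat_lit 0) (p (nat_lit 0x8a0b098a889a) (nat_lit 0) (p (nat_lit 0x98a890a081a) (nat_lit 0) (p (nat_lit 0x890a0888079a) (nat_lit 0) (p (nat_lit 0x8898807871a) (nat_lit 0) (p (nat_lit 0x80000800080788868a) (nat_lit 0) (p (nat_lit 0x80000800078706860a) (nat_lit 0) (p (nat_lit 0x8806878582) (nat_lit 0) (p (nat_lit 0x786070502) (nat_lit 0) (p (nat_lit 0x8705850482) (nat_lit 0) (p (nat_lit 0x685048402) (nat_lit 0) (p (nat_lit 0x160014) (nat_lit 0) (p (nat_lit 0x60592) (nat_lit 0) (p (nat_lit 0x48512) (nat_lit 0) (p (nat_lit 0x50392) (nat_lit 0) (p (nat_lit 0x38312) (nat_lit 0) (p (nat_lit 0x40212) (nat_lit 0) (p (nat_lit 0x28192) (nat_lit 0) (p (nat_lit 0x30092) (nat_lit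 0) (p (nat_lit 0x18012) (nat_lit 0) pn))))))))))))))))))))))))) :=
  Cl.node (nat_lit 0x109) (nat_lit 2) (by decide +kernel) (ClAll.succ (ClAll.succ ClAll.zero s6) s7)

def n9 : Cl (O (nat_lit 3)) (R (nat_lit 10449))
    (p (nat_lit 0x81) (nat_lit 1) (p (nat_lit 0xc1) (nat_lit 1) (p (nat_lit 0x119) (nat_lit 1) (p (nat_lit 0xd1) (nat_lit 0) (p (nat_lit 0x89) (nat_lit 0) (p (nat_lit 0x41) (nat_lit 0) (p (nat_lit 0x8a0b098a889a) (nat_lit 0) (p (nat_lit 0x98a890a081a) (nat_lit 0) (p (nat_lit 0x890a0888079a) (nat_lit 0) (p (nat_lit 0x8898807871a) (nat_lit 0) (p (nat_lit 0x80000800080788868a) (nat_lit 0) (p (nat_lit 0x80000800078706860a) (nat_lit 0) (p (nat_lit 0x8806878582) (nat_lit 0) (p (nat_lit 0x786070502) (nat_lit 0) (p (nat_lit 0x8705850482) (nat_lit 0) (p (nat_lit 0x685048402) (nat_lit 0) (p (nat_lit 0x160014) (nat_lit 0) (p (nat_lit 0x60592) (nat_lit 0) (p (nat_lit 0x48512) (nat_lit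 0) (p (nat_lit 0x50392) (nat_lit 0) (p (nat_lit 0x38312) (nat_lit 0) (p (nat_lit 0x40212) (nat_lit 0) (p (nat_lit 0x28192) (nat_lit 0) (p (nat_lit 0x30092) (nat_lit 0) (p (nat_lit 0x18012) (nat_lit 0) pn))))))))))))))))))))))))) :=
  Cl.node (nat_lit 0x101) (nat_lit 2) (by decide +kernel) (ClAll.succ (ClAll.succ ClAll.zero n2) n3)

def n10 : Cl (O (nat_lit 3)) (R (nat_lit 10449))
    (p (nat_lit 0x81) (nat_lit 1) (p (nat_lit 0x101) (nat_lit 1) (p (nat_lit 0x111) (nat_lit 0) (p (nat_lit 0xd1) (nat_lit 1) (p (nat_lit 0x89) (nat_lit 0) (p (nat_lit 0x41) (nat_lit 0) (p (nat_lit 0x8a0b098a889a) (nat_lit 0) (p (nat_lit 0x98a890a081a) (nat_lit 0) (p (nat_lit 0x890a0888079a) (nat_lit 0) (p (nat_lit 0x8898807871a) (nat_lit 0) (p (nat_lit 0x80000800080788868a) (nat_lit 0) (p (nat_lit 0x80000800078706860a) (nat_lit 0) (p (nat_lit 0x8806878582) (nat_lit 0) (p (nat_lit 0x786070502) (nat_lit 0)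 (p (nat_lit 0x8705850482) (nat_lit 0) (p (nat_lit 0x685048402) (nat_lit 0) (p (nat_lit 0x160014) (nat_lit 0) (p (nat_lit 0x60592) (nat_lit 0) (p (nat_lit 0x48512) (nat_lit 0) (p (nat_lit 0x50392) (nat_lit 0) (p (nat_lit 0x38312) (nat_lit 0) (p (nat_lit 0x40212) (nat_lit 0) (p (nat_lit 0x28192) (nat_lit 0) (p (nat_lit 0x30092) (nat_lit 0) (p (nat_lit 0x18012) (nat_lit 0) pn))))))))))))))))))))))))) :=
  Cl.node (nat_lit 0xc1) (nat_lit 2) (by decide +kernel) (ClAll.succ (ClAll.succ ClAll.zero s14) s15)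

def n11 : Cl (O (nat_lit 3)) (R (nat_lit 10449))
    (p (nat_lit 0x101) (nat_lit 1) (p (nat_lit 0xc1) (nat_lit 1) (p (nat_lit 0x119) (nat_lit 1) (p (nat_lit 0xc9) (nat_lit 0) (p (nat_lit 0x89) (nat_lit 1) (p (nat_lit 0x41) (nat_lit 0) (p (nat_lit 0x8a0b098a889a) (nat_lit 0) (p (nat_lit 0x98a890a081a) (nat_lit 0) (p (nat_lit 0x890a0888079a) (nat_lit 0) (p (nat_lit 0x8898807871a) (nat_lit 0) (p (nat_lit 0x80000800080788868a) (nat_lit 0) (p (nat_lit 0x80000800078706860a) (nat_lit 0) (p (nat_lit 0x8806878582) (nat_lit 0) (p (nat_lit 0x786070502) (nat_lit 0) (p (nat_lit 0x8705850482) (nat_lit 0) (p (nat_lit 0x685048402) (nat_lit 0) (p (nat_lit 0x160014) (nat_lit 0) (p (nat_lit 0x60592) (nat_lit 0) (p (nat_lit 0x48512) (nat_lit 0) (p (nat_lit 0x50392) (nat_lit 0) (p (nat_lit 0x38312) (nat_lit 0) (p (nat_lit 0x40212) (nat_lit 0) (p (nat_lit 0x28192) (nat_lit 0) (p (nat_lit 0x30092) (nat_lit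 0) (p (nat_lit 0x18012) (nat_lit 0) pn))))))))))))))))))))))))) :=
  Cl.node (nat_lit 0x200004) (nat_lit 2) (by decide +kernel) (ClAll.succ (ClAll.succ ClAll.zero s23) s24)

def n12 : Cl (O (nat_lit 3)) (R (nat_lit 10449))
    (p (nat_lit 0xc9) (nat_lit 1) (p (nat_lit 0xc1) (nat_lit 0) (p (nat_lit 0x119) (nat_lit 1) (p (nat_lit 0xd1) (nat_lit 0) (p (nat_lit 0x81) (nat_lit 0) (p (nat_lit 0x41) (nat_lit 1) (p (nat_lit 0x8a0b098a889a) (nat_lit 0) (p (nat_lit 0x98a890a081a) (nat_lit 0) (p (nat_lit 0x890a0888079a) (nat_lit 0) (p (nat_lit 0x8898807871a) (nat_lit 0) (p (nat_lit 0x80000800080788868a) (nat_lit 0) (p (nat_lit 0x80000800078706860a) (nat_lit 0) (p (nat_lit 0x8806878582) (nat_lit 0) (p (nat_lit 0x786070502) (nat_lit 0) (p (nat_lit 0x8705850482) (nat_lit 0) (p (nat_lit 0x685048402) (nat_lit 0) (p (nat_lit 0x160014) (nat_lit 0) (p (nat_lit 0x60592) (nat_lit 0) (p (nat_lit 0x48512)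 (nat_lit 0) (p (nat_lit 0x50392) (nat_lit 0) (p (nat_lit 0x38312) (nat_lit 0) (p (nat_lit 0x40212) (nat_lit 0) (p (nat_lit 0x28192) (nat_lit 0) (p (nat_lit 0x30092) (nat_lit 0) (p (nat_lit 0x18012) (nat_lit 0) pn))))))))))))))))))))))))) :=
  Cl.node (nat_lit 0x89) (nat_lit 2) (by decide +kernel) (ClAll.succ (ClAll.succ ClAll.zero s29) n4)

def n13 : Cl (O (nat_lit 3)) (R (nat_lit 10449))
    (p (nat_lit 0x101) (nat_lit 1) (p (nat_lit 0xc1) (nat_lit 1) (p (nat_lit 0x119) (nat_lit 1) (p (nat_lit 0xd1) (nat_lit 0) (p (nat_lit 0x81) (nat_lit 0) (p (nat_lit 0x41) (nat_lit 1) (p (nat_lit 0x8a0b098a889a) (nat_lit 0) (p (nat_lit 0x98a890a081a) (nat_lit 0) (p (nat_lit 0x890a0888079a) (nat_lit 0) (p (nat_lit 0x8898807871a) (nat_lit 0) (p (nat_lit 0x80000800080788868a) (nat_lit 0) (p (nat_lit 0x80000800078706860a) (nat_lit 0) (p (nat_lit 0x8806878582) (nat_lit 0) (p (nat_lit 0x786070502) (nat_lit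 0) (p (nat_lit 0x8705850482) (nat_lit 0) (p (nat_lit 0x685048402) (nat_lit 0) (p (nat_lit 0x160014) (nat_lit 0) (p (nat_lit 0x60592) (nat_lit 0) (p (nat_lit 0x48512) (nat_lit 0) (p (nat_lit 0x50392) (nat_lit 0) (p (nat_lit 0x38312) (nat_lit 0) (p (nat_lit 0x40212) (nat_lit 0) (p (nat_lit 0x28192) (nat_lit 0) (p (nat_lit 0x30092) (nat_lit 0) (p (nat_lit 0x18012) (nat_lit 0) pn))))))))))))))))))))))))) :=
  Cl.node (nat_lit 0x89) (nat_lit 2) (by decide +kernel) (ClAll.succ (ClAll.succ ClAll.zero s35) n5)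

def n14 : Cl (O (nat_lit 3)) (R (nat_lit 10449))
    (p (nat_lit 0xd1) (nat_lit 1) (p (nat_lit 0xc9) (nat_lit 0) (p (nat_lit 0x119) (nat_lit 1) (p (nat_lit 0xc1) (nat_lit 0) (p (nat_lit 0x81) (nat_lit 1) (p (nat_lit 0x41) (nat_lit 1) (p (nat_lit 0x8a0b098a889a) (nat_lit 0) (p (nat_lit 0x98a890a081a) (nat_lit 0) (p (nat_lit 0x890a0888079a) (nat_lit 0) (p (nat_lit 0x8898807871a) (nat_lit 0) (p (nat_lit 0x80000800080788868a) (nat_lit 0) (p (nat_lit 0x80000800078706860a) (nat_lit 0) (p (nat_lit 0x8806878582) (nat_lit 0) (p (nat_lit 0x786070502) (nat_lit 0) (p (nat_lit 0x8705850482) (nat_lit 0) (p (nat_lit 0x685048402) (nat_lit 0) (p (nat_lit 0x160014) (nat_lit 0) (p (nat_lit 0x60592) (nat_lit 0) (p (nat_lit 0x48512) (nat_lit 0) (p (nat_lit 0x50392) (nat_lit 0) (p (nat_lit 0x38312) (nat_lit 0) (p (nat_lit 0x40212) (nat_lit 0) (p (nat_lit 0x28192) (nat_lit 0) (p (nat_lit 0x30092) (nat_lit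 0) (p (nat_lit 0x18012) (nat_lit 0) pn))))))))))))))))))))))))) :=
  Cl.node (nat_lit 0x111) (nat_lit 2) (by decide +kernel) (ClAll.succ (ClAll.succ ClAll.zero s43) n6)

def n15 : Cl (O (nat_lit 3)) (R (nat_lit 10449))
    (p (nat_lit 0x109) (nat_lit 1) (p (nat_lit 0xc9) (nat_lit 1) (p (nat_lit 0x119) (nat_lit 1) (p (nat_lit 0xc1) (nat_lit 0) (p (nat_lit 0x81) (nat_lit 1) (p (nat_lit 0x41) (nat_lit 1) (p (nat_lit 0x8a0b098a889a) (nat_lit 0) (p (nat_lit 0x98a890a081a) (nat_lit 0) (p (nat_lit 0x890a0888079a) (nat_lit 0) (p (nat_lit 0x8898807871a) (nat_lit 0) (p (nat_lit 0x80000800080788868a) (nat_lit 0) (p (nat_lit 0x80000800078706860a) (nat_lit 0) (p (nat_lit 0x8806878582) (nat_lit 0) (p (nat_lit 0x786070502) (nat_lit 0) (p (nat_lit 0x8705850482) (nat_lit 0) (p (nat_lit 0x685048402) (nat_lit 0) (p (nat_lit 0x160014) (nat_lit 0) (p (nat_lit 0x60592) (nat_lit 0) (p (nat_lit 0x48512)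 (nat_lit 0) (p (nat_lit 0x50392) (nat_lit 0) (p (nat_lit 0x38312) (nat_lit 0) (p (nat_lit 0x40212) (nat_lit 0) (p (nat_lit 0x28192) (nat_lit 0) (p (nat_lit 0x30092) (nat_lit 0) (p (nat_lit 0x18012) (nat_lit 0) pn))))))))))))))))))))))))) :=
  Cl.node (nat_lit 0x200004) (nat_lit 2) (by decide +kernel) (ClAll.succ (ClAll.succ ClAll.zero s47) s48)

def n16 : Cl (O (nat_lit 3)) (R (nat_lit 10449))
    (p (nat_lit 0x101) (nat_lit 1) (p (nat_lit 0x119) (nat_lit 0) (p (nat_lit 0xd1) (nat_lit 0) (p (nat_lit 0x89) (nat_lit 0) (p (nat_lit 0x41) (nat_lit 0) (p (nat_lit 0x8a0b098a889a) (nat_lit 0) (p (nat_lit 0x98a890a081a) (nat_lit 0) (p (nat_lit 0x890a0888079a) (nat_lit 0) (p (nat_lit 0x8898807871a) (nat_lit 0) (p (nat_lit 0x80000800080788868a) (nat_lit 0) (p (nat_lit 0x80000800078706860a) (nat_lit 0) (p (nat_lit 0x8806878582) (nat_lit 0) (p (nat_lit 0x786070502) (nat_lit 0) (p (nat_lit 0x8705850482)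 (nat_lit 0) (p (nat_lit 0x685048402) (nat_lit 0) (p (nat_lit 0x160014) (nat_lit 0) (p (nat_lit 0x60592) (nat_lit 0) (p (nat_lit 0x48512) (nat_lit 0) (p (nat_lit 0x50392) (nat_lit 0) (p (nat_lit 0x38312) (nat_lit 0) (p (nat_lit 0x40212) (nat_lit 0) (p (nat_lit 0x28192) (nat_lit 0) (p (nat_lit 0x30092) (nat_lit 0) (p (nat_lit 0x18012) (nat_lit 0) pn)))))))))))))))))))))))) :=
  Cl.node (nat_lit 0x81) (nat_lit 2) (by decide +kernel) (ClAll.succ (ClAll.succ ClAll.zero n7) s3)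

def n17 : Cl (O (nat_lit 3)) (R (nat_lit 10449))
    (p (nat_lit 0xc1) (nat_lit 0) (p (nat_lit 0x119) (nat_lit 1) (p (nat_lit 0xd1) (nat_lit 0) (p (nat_lit 0x89) (nat_lit 0) (p (nat_lit 0x41) (nat_lit 0) (p (nat_lit 0x8a0b098a889a) (nat_lit 0) (p (nat_lit 0x98a890a081a) (nat_lit 0) (p (nat_lit 0x890a0888079a) (nat_lit 0) (p (nat_lit 0x8898807871a) (nat_lit 0) (p (nat_lit 0x80000800080788868a) (nat_lit 0) (p (nat_lit 0x80000800078706860a) (nat_lit 0) (p (nat_lit 0x8806878582) (nat_lit 0) (p (nat_lit 0x786070502) (nat_lit 0) (p (nat_lit 0x8705850482) (nat_lit 0) (p (nat_lit 0x685048402) (nat_lit 0) (p (nat_lit 0x160014) (nat_lit 0) (p (nat_lit 0x60592) (nat_lit 0) (p (nat_lit 0x48512) (nat_lit 0) (p (nat_lit 0x50392) (nat_lit 0) (p (nat_lit 0x38312) (nat_lit 0) (p (nat_lit 0x40212) (nat_lit 0) (p (nat_lit 0x28192) (nat_lit 0) (p (nat_lit 0x30092) (nat_lit 0) (p (nat_lit 0x18012) (nat_lit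 0) pn)))))))))))))))))))))))) :=
  Cl.node (nat_lit 0xc9) (nat_lit 2) (by decide +kernel) (ClAll.succ (ClAll.succ ClAll.zero s4) s5)

def n18 : Cl (O (nat_lit 3)) (R (nat_lit 10449))
    (p (nat_lit 0xc1) (nat_lit 1) (p (nat_lit 0x119) (nat_lit 1) (p (nat_lit 0xd1) (nat_lit 0) (p (nat_lit 0x89) (nat_lit 0) (p (nat_lit 0x41) (nat_lit 0) (p (nat_lit 0x8a0b098a889a) (nat_lit 0) (p (nat_lit 0x98a890a081a) (nat_lit 0) (p (nat_lit 0x890a0888079a) (nat_lit 0) (p (nat_lit 0x8898807871a) (nat_lit 0) (p (nat_lit 0x80000800080788868a) (nat_lit 0) (p (nat_lit 0x80000800078706860a) (nat_lit 0) (p (nat_lit 0x8806878582) (nat_lit 0) (p (nat_lit 0x786070502) (nat_lit 0) (p (nat_lit 0x8705850482) (nat_lit 0) (p (nat_lit 0x685048402) (nat_lit 0) (p (nat_lit 0x160014) (nat_lit 0) (p (nat_lit 0x60592) (nat_lit 0) (p (nat_lit 0x48512) (nat_lit 0) (p (nat_lit 0x50392) (nat_lit 0) (p (nat_lit 0x38312) (nat_lit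 0) (p (nat_lit 0x40212) (nat_lit 0) (p (nat_lit 0x28192) (nat_lit 0) (p (nat_lit 0x30092) (nat_lit 0) (p (nat_lit 0x18012) (nat_lit 0) pn)))))))))))))))))))))))) :=
  Cl.node (nat_lit 0x81) (nat_lit 2) (by decide +kernel) (ClAll.succ (ClAll.succ ClAll.zero n8) n9)

def n19 : Cl (O (nat_lit 3)) (R (nat_lit 10449))
    (p (nat_lit 0x101) (nat_lit 1) (p (nat_lit 0x111) (nat_lit 0) (p (nat_lit 0xd1) (nat_lit 1) (p (nat_lit 0x89) (nat_lit 0) (p (nat_lit 0x41) (nat_lit 0) (p (nat_lit 0x8a0b098a889a) (nat_lit 0) (p (nat_lit 0x98a890a081a) (nat_lit 0) (p (nat_lit 0x890a0888079a) (nat_lit 0) (p (nat_lit 0x8898807871a) (nat_lit 0) (p (nat_lit 0x80000800080788868a) (nat_lit 0) (p (nat_lit 0x80000800078706860a) (nat_lit 0) (p (nat_lit 0x8806878582) (nat_lit 0) (p (nat_lit 0x786070502) (nat_lit 0) (p (nat_lit 0x8705850482) (nat_lit 0) (p (nat_lit 0x685048402) (nat_lit 0) (p (nat_lit 0x160014)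 (nat_lit 0) (p (nat_lit 0x60592) (nat_lit 0) (p (nat_lit 0x48512) (nat_lit 0) (p (nat_lit 0x50392) (nat_lit 0) (p (nat_lit 0x38312) (nat_lit 0) (p (nat_lit 0x40212) (nat_lit 0) (p (nat_lit 0x28192) (nat_lit 0) (p (nat_lit 0x30092) (nat_lit 0) (p (nat_lit 0x18012) (nat_lit 0) pn)))))))))))))))))))))))) :=
  Cl.node (nat_lit 0x81) (nat_lit 2) (by decide +kernel) (ClAll.succ (ClAll.succ ClAll.zero s13) n10)

def n20 : Cl (O (nat_lit 3)) (R (nat_lit 10449))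
    (p (nat_lit 0x81) (nat_lit 1) (p (nat_lit 0x111) (nat_lit 1) (p (nat_lit 0xd1) (nat_lit 1) (p (nat_lit 0x89) (nat_lit 0) (p (nat_lit 0x41) (nat_lit 0) (p (nat_lit 0x8a0b098a889a) (nat_lit 0) (p (nat_lit 0x98a890a081a) (nat_lit 0) (p (nat_lit 0x890a0888079a) (nat_lit 0) (p (nat_lit 0x8898807871a) (nat_lit 0) (p (nat_lit 0x80000800080788868a) (nat_lit 0) (p (nat_lit 0x80000800078706860a) (nat_lit 0) (p (nat_lit 0x8806878582) (nat_lit 0) (p (nat_lit 0x786070502) (nat_lit 0) (p (nat_lit 0x8705850482) (nat_lit 0) (p (nat_lit 0x685048402) (nat_lit 0) (p (nat_lit 0x160014) (nat_lit 0) (p (nat_lit 0x60592) (nat_lit 0) (p (nat_lit 0x48512) (nat_lit 0) (p (nat_lit 0x50392) (nat_lit 0) (p (nat_lit 0x38312) (nat_lit 0) (p (nat_lit 0x40212) (nat_lit 0) (p (nat_lit 0x28192) (nat_lit 0) (p (nat_lit 0x30092) (nat_lit 0) (p (nat_lit 0x18012) (nat_lit 0) pn)))))))))))))))))))))))) :=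
  Cl.node (nat_lit 0xc1) (nat_lit 2) (by decide +kernel) (ClAll.succ (ClAll.succ ClAll.zero s17) s18)

def n21 : Cl (O (nat_lit 3)) (R (nat_lit 10449))
    (p (nat_lit 0xc1) (nat_lit 1) (p (nat_lit 0x119) (nat_lit 1) (p (nat_lit 0xc9) (nat_lit 0) (p (nat_lit 0x89) (nat_lit 1) (p (nat_lit 0x41) (nat_lit 0) (p (nat_lit 0x8a0b098a889a) (nat_lit 0) (p (nat_lit 0x98a890a081a) (nat_lit 0) (p (nat_lit 0x890a0888079a) (nat_lit 0) (p (nat_lit 0x8898807871a) (nat_lit 0) (p (nat_lit 0x80000800080788868a) (nat_lit 0) (p (nat_lit 0x80000800078706860a) (nat_lit 0) (p (nat_lit 0x8806878582) (nat_lit 0) (p (nat_lit 0x786070502) (nat_lit 0) (p (nat_lit 0x8705850482) (nat_lit 0) (p (nat_lit 0x685048402) (nat_lit 0) (p (nat_lit 0x160014) (nat_lit 0) (p (nat_lit 0x60592) (nat_lit 0) (p (nat_lit 0x48512) (nat_lit 0) (p (nat_lit 0x50392) (nat_lit 0) (p (nat_lit 0x38312) (nat_lit 0) (p (nat_lit 0x40212)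 (nat_lit 0) (p (nat_lit 0x28192) (nat_lit 0) (p (nat_lit 0x30092) (nat_lit 0) (p (nat_lit 0x18012) (nat_lit 0) pn)))))))))))))))))))))))) :=
  Cl.node (nat_lit 0x101) (nat_lit 2) (by decide +kernel) (ClAll.succ (ClAll.succ ClAll.zero s22) n11)

def n22 : Cl (O (nat_lit 3)) (R (nat_lit 10449))
    (p (nat_lit 0xc1) (nat_lit 0) (p (nat_lit 0x119) (nat_lit 1) (p (nat_lit 0xd1) (nat_lit 0) (p (nat_lit 0x81) (nat_lit 0) (p (nat_lit 0x41) (nat_lit 1) (p (nat_lit 0x8a0b098a889a) (nat_lit 0) (p (nat_lit 0x98a890a081a) (nat_lit 0) (p (nat_lit 0x890a0888079a) (nat_lit 0) (p (nat_lit 0x8898807871a) (nat_lit 0) (p (nat_lit 0x80000800080788868a) (nat_lit 0) (p (nat_lit 0x80000800078706860a) (nat_lit 0) (p (nat_lit 0x8806878582) (nat_lit 0) (p (nat_lit 0x786070502) (nat_lit 0) (p (nat_lit 0x8705850482) (nat_lit 0) (p (nat_lit 0x685048402) (nat_lit 0) (p (nat_lit 0x160014) (nat_lit 0) (p (nat_lit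 0x60592) (nat_lit 0) (p (nat_lit 0x48512) (nat_lit 0) (p (nat_lit 0x50392) (nat_lit 0) (p (nat_lit 0x38312) (nat_lit 0) (p (nat_lit 0x40212) (nat_lit 0) (p (nat_lit 0x28192) (nat_lit 0) (p (nat_lit 0x30092) (nat_lit 0) (p (nat_lit 0x18012) (nat_lit 0) pn)))))))))))))))))))))))) :=
  Cl.node (nat_lit 0xc9) (nat_lit 2) (by decide +kernel) (ClAll.succ (ClAll.succ ClAll.zero s28) n12)

def n23 : Cl (O (nat_lit 3)) (R (nat_lit 10449))
    (p (nat_lit 0xc1) (nat_lit 1) (p (nat_lit 0x119) (nat_lit 1) (p (nat_lit 0xd1) (nat_lit 0) (p (nat_lit 0x81) (nat_lit 0) (p (nat_lit 0x41) (nat_lit 1) (p (nat_lit 0x8a0b098a889a) (nat_lit 0) (p (nat_lit 0x98a890a081a) (nat_lit 0) (p (nat_lit 0x890a0888079a) (nat_lit 0) (p (nat_lit 0x8898807871a) (nat_lit 0) (p (nat_lit 0x80000800080788868a) (nat_lit 0) (p (nat_lit 0x80000800078706860a) (nat_lit 0) (p (nat_lit 0x8806878582) (nat_lit 0) (p (nat_lit 0x786070502)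 (nat_lit 0) (p (nat_lit 0x8705850482) (nat_lit 0) (p (nat_lit 0x685048402) (nat_lit 0) (p (nat_lit 0x160014) (nat_lit 0) (p (nat_lit 0x60592) (nat_lit 0) (p (nat_lit 0x48512) (nat_lit 0) (p (nat_lit 0x50392) (nat_lit 0) (p (nat_lit 0x38312) (nat_lit 0) (p (nat_lit 0x40212) (nat_lit 0) (p (nat_lit 0x28192) (nat_lit 0) (p (nat_lit 0x30092) (nat_lit 0) (p (nat_lit 0x18012) (nat_lit 0) pn)))))))))))))))))))))))) :=
  Cl.node (nat_lit 0x101) (nat_lit 2) (by decide +kernel) (ClAll.succ (ClAll.succ ClAll.zero s34) n13)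

def n24 : Cl (O (nat_lit 3)) (R (nat_lit 10449))
    (p (nat_lit 0xc9) (nat_lit 0) (p (nat_lit 0x119) (nat_lit 1) (p (nat_lit 0xc1) (nat_lit 0) (p (nat_lit 0x81) (nat_lit 1) (p (nat_lit 0x41) (nat_lit 1) (p (nat_lit 0x8a0b098a889a) (nat_lit 0) (p (nat_lit 0x98a890a081a) (nat_lit 0) (p (nat_lit 0x890a0888079a) (nat_lit 0) (p (nat_lit 0x8898807871a) (nat_lit 0) (p (nat_lit 0x80000800080788868a) (nat_lit 0) (p (nat_lit 0x80000800078706860a) (nat_lit 0) (p (nat_lit 0x8806878582) (nat_lit 0) (p (nat_lit 0x786070502) (nat_lit 0) (p (nat_lit 0x8705850482) (nat_lit 0) (p (nat_lit 0x685048402) (nat_lit 0) (p (nat_lit 0x160014) (nat_lit 0) (p (nat_lit 0x60592) (nat_lit 0) (p (nat_lit 0x48512) (nat_lit 0) (p (nat_lit 0x50392) (nat_lit 0) (p (nat_lit 0x38312) (nat_lit 0) (p (nat_lit 0x40212) (nat_lit 0) (p (nat_lit 0x28192) (nat_lit 0) (p (nat_lit 0x30092) (nat_lit 0) (p (nat_lit 0x18012) (nat_lit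 0) pn)))))))))))))))))))))))) :=
  Cl.node (nat_lit 0xd1) (nat_lit 2) (by decide +kernel) (ClAll.succ (ClAll.succ ClAll.zero s42) n14)

def n25 : Cl (O (nat_lit 3)) (R (nat_lit 10449))
    (p (nat_lit 0xc9) (nat_lit 1) (p (nat_lit 0x119) (nat_lit 1) (p (nat_lit 0xc1) (nat_lit 0) (p (nat_lit 0x81) (nat_lit 1) (p (nat_lit 0x41) (nat_lit 1) (p (nat_lit 0x8a0b098a889a) (nat_lit 0) (p (nat_lit 0x98a890a081a) (nat_lit 0) (p (nat_lit 0x890a0888079a) (nat_lit 0) (p (nat_lit 0x8898807871a) (nat_lit 0) (p (nat_lit 0x80000800080788868a) (nat_lit 0) (p (nat_lit 0x80000800078706860a) (nat_lit 0) (p (nat_lit 0x8806878582) (nat_lit 0) (p (nat_lit 0x786070502) (nat_lit 0) (p (nat_lit 0x8705850482) (nat_lit 0) (p (nat_lit 0x685048402) (nat_lit 0) (p (nat_lit 0x160014) (nat_lit 0) (p (nat_lit 0x60592) (nat_lit 0) (p (nat_lit 0x48512) (nat_lit 0) (p (nat_lit 0x50392) (nat_lit 0) (p (nat_lit 0x38312)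 (nat_lit 0) (p (nat_lit 0x40212) (nat_lit 0) (p (nat_lit 0x28192) (nat_lit 0) (p (nat_lit 0x30092) (nat_lit 0) (p (nat_lit 0x18012) (nat_lit 0) pn)))))))))))))))))))))))) :=
  Cl.node (nat_lit 0x109) (nat_lit 2) (by decide +kernel) (ClAll.succ (ClAll.succ ClAll.zero s46) n15)

def n26 : Cl (O (nat_lit 3)) (R (nat_lit 10449))
    (p (nat_lit 0x119) (nat_lit 0) (p (nat_lit 0xd1) (nat_lit 0) (p (nat_lit 0x89) (nat_lit 0) (p (nat_lit 0x41) (nat_lit 0) (p (nat_lit 0x8a0b098a889a) (nat_lit 0) (p (nat_lit 0x98a890a081a) (nat_lit 0) (p (nat_lit 0x890a0888079a) (nat_lit 0) (p (nat_lit 0x8898807871a) (nat_lit 0) (p (nat_lit 0x80000800080788868a) (nat_lit 0) (p (nat_lit 0x80000800078706860a) (nat_lit 0) (p (nat_lit 0x8806878582) (nat_lit 0) (p (nat_lit 0x786070502) (nat_lit 0) (p (nat_lit 0x8705850482) (nat_lit 0) (p (nat_lit 0x685048402) (nat_lit 0) (p (nat_lit 0x160014) (nat_lit 0) (p (nat_lit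 0x60592) (nat_lit 0) (p (nat_lit 0x48512) (nat_lit 0) (p (nat_lit 0x50392) (nat_lit 0) (p (nat_lit 0x38312) (nat_lit 0) (p (nat_lit 0x40212) (nat_lit 0) (p (nat_lit 0x28192) (nat_lit 0) (p (nat_lit 0x30092) (nat_lit 0) (p (nat_lit 0x18012) (nat_lit 0) pn))))))))))))))))))))))) :=
  Cl.node (nat_lit 0x101) (nat_lit 2) (by decide +kernel) (ClAll.succ (ClAll.succ ClAll.zero s0) n16)

def n27 : Cl (O (nat_lit 3)) (R (nat_lit 10449))
    (p (nat_lit 0x119) (nat_lit 1) (p (nat_lit 0xd1) (nat_lit 0) (p (nat_lit 0x89) (nat_lit 0) (p (nat_lit 0x41) (nat_lit 0) (p (nat_lit 0x8a0b098a889a) (nat_lit 0) (p (nat_lit 0x98a890a081a) (nat_lit 0) (p (nat_lit 0x890a0888079a) (nat_lit 0) (p (nat_lit 0x8898807871a) (nat_lit 0) (p (nat_lit 0x80000800080788868a) (nat_lit 0) (p (nat_lit 0x80000800078706860a) (nat_lit 0) (p (nat_lit 0x8806878582) (nat_lit 0) (p (nat_lit 0x786070502) (nat_lit 0) (p (nat_lit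 0x8705850482) (nat_lit 0) (p (nat_lit 0x685048402) (nat_lit 0) (p (nat_lit 0x160014) (nat_lit 0) (p (nat_lit 0x60592) (nat_lit 0) (p (nat_lit 0x48512) (nat_lit 0) (p (nat_lit 0x50392) (nat_lit 0) (p (nat_lit 0x38312) (nat_lit 0) (p (nat_lit 0x40212) (nat_lit 0) (p (nat_lit 0x28192) (nat_lit 0) (p (nat_lit 0x30092) (nat_lit 0) (p (nat_lit 0x18012) (nat_lit 0) pn))))))))))))))))))))))) :=
  Cl.node (nat_lit 0xc1) (nat_lit 2) (by decide +kernel) (ClAll.succ (ClAll.succ ClAll.zero n17) n18)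

def n28 : Cl (O (nat_lit 3)) (R (nat_lit 10449))
    (p (nat_lit 0x111) (nat_lit 0) (p (nat_lit 0xd1) (nat_lit 1) (p (nat_lit 0x89) (nat_lit 0) (p (nat_lit 0x41) (nat_lit 0) (p (nat_lit 0x8a0b098a889a) (nat_lit 0) (p (nat_lit 0x98a890a081a) (nat_lit 0) (p (nat_lit 0x890a0888079a) (nat_lit 0) (p (nat_lit 0x8898807871a) (nat_lit 0) (p (nat_lit 0x80000800080788868a) (nat_lit 0) (p (nat_lit 0x80000800078706860a) (nat_lit 0) (p (nat_lit 0x8806878582) (nat_lit 0) (p (nat_lit 0x786070502) (nat_lit 0) (p (nat_lit 0x8705850482) (nat_lit 0) (p (nat_lit 0x685048402) (nat_lit 0) (p (nat_lit 0x160014) (nat_lit 0) (p (nat_lit 0x60592) (nat_lit 0) (p (nat_lit 0x48512) (nat_lit 0) (p (nat_lit 0x50392) (nat_lit 0) (p (nat_lit 0x38312) (nat_lit 0) (p (nat_lit 0x40212) (nat_lit 0) (p (nat_lit 0x28192) (nat_lit 0) (p (nat_lit 0x30092) (nat_lit 0) (p (nat_lit 0x18012) (nat_lit 0) pn)))))))))))))))))))))))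 :=
  Cl.node (nat_lit 0x101) (nat_lit 2) (by decide +kernel) (ClAll.succ (ClAll.succ ClAll.zero s12) n19)

def n29 : Cl (O (nat_lit 3)) (R (nat_lit 10449))
    (p (nat_lit 0x111) (nat_lit 1) (p (nat_lit 0xd1) (nat_lit 1) (p (nat_lit 0x89) (nat_lit 0) (p (nat_lit 0x41) (nat_lit 0) (p (nat_lit 0x8a0b098a889a) (nat_lit 0) (p (nat_lit 0x98a890a081a) (nat_lit 0) (p (nat_lit 0x890a0888079a) (nat_lit 0) (p (nat_lit 0x8898807871a) (nat_lit 0) (p (nat_lit 0x80000800080788868a) (nat_lit 0) (p (nat_lit 0x80000800078706860a) (nat_lit 0) (p (nat_lit 0x8806878582) (nat_lit 0) (p (nat_lit 0x786070502) (nat_lit 0) (p (nat_lit 0x8705850482) (nat_lit 0) (p (nat_lit 0x685048402) (nat_lit 0) (p (nat_lit 0x160014) (nat_lit 0) (p (nat_lit 0x60592) (nat_lit 0) (p (nat_lit 0x48512) (nat_lit 0) (p (nat_lit 0x50392) (nat_lit 0) (p (nat_lit 0x38312) (nat_lit 0) (p (nat_lit 0x40212) (nat_lit 0) (p (nat_lit 0x28192)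 (nat_lit 0) (p (nat_lit 0x30092) (nat_lit 0) (p (nat_lit 0x18012) (nat_lit 0) pn))))))))))))))))))))))) :=
  Cl.node (nat_lit 0x81) (nat_lit 2) (by decide +kernel) (ClAll.succ (ClAll.succ ClAll.zero s16) n20)

def n30 : Cl (O (nat_lit 3)) (R (nat_lit 10449))
    (p (nat_lit 0x119) (nat_lit 0) (p (nat_lit 0xc9) (nat_lit 0) (p (nat_lit 0x89) (nat_lit 1) (p (nat_lit 0x41) (nat_lit 0) (p (nat_lit 0x8a0b098a889a) (nat_lit 0) (p (nat_lit 0x98a890a081a) (nat_lit 0) (p (nat_lit 0x890a0888079a) (nat_lit 0) (p (nat_lit 0x8898807871a) (nat_lit 0) (p (nat_lit 0x80000800080788868a) (nat_lit 0) (p (nat_lit 0x80000800078706860a) (nat_lit 0) (p (nat_lit 0x8806878582) (nat_lit 0) (p (nat_lit 0x786070502) (nat_lit 0) (p (nat_lit 0x8705850482) (nat_lit 0) (p (nat_lit 0x685048402) (nat_lit 0) (p (nat_lit 0x160014) (nat_lit 0) (p (nat_lit 0x60592) (nat_lit 0) (p (nat_lit 0x48512) (nat_lit 0) (p (nat_lit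 0x50392) (nat_lit 0) (p (nat_lit 0x38312) (nat_lit 0) (p (nat_lit 0x40212) (nat_lit 0) (p (nat_lit 0x28192) (nat_lit 0) (p (nat_lit 0x30092) (nat_lit 0) (p (nat_lit 0x18012) (nat_lit 0) pn))))))))))))))))))))))) :=
  Cl.node (nat_lit 0x101) (nat_lit 2) (by decide +kernel) (ClAll.succ (ClAll.succ ClAll.zero s19) s20)

def n31 : Cl (O (nat_lit 3)) (R (nat_lit 10449))
    (p (nat_lit 0x119) (nat_lit 1) (p (nat_lit 0xc9) (nat_lit 0) (p (nat_lit 0x89) (nat_lit 1) (p (nat_lit 0x41) (nat_lit 0) (p (nat_lit 0x8a0b098a889a) (nat_lit 0) (p (nat_lit 0x98a890a081a) (nat_lit 0) (p (nat_lit 0x890a0888079a) (nat_lit 0) (p (nat_lit 0x8898807871a) (nat_lit 0) (p (nat_lit 0x80000800080788868a) (nat_lit 0) (p (nat_lit 0x80000800078706860a) (nat_lit 0) (p (nat_lit 0x8806878582) (nat_lit 0) (p (nat_lit 0x786070502) (nat_lit 0) (p (nat_lit 0x8705850482) (nat_lit 0) (p (nat_lit 0x685048402) (nat_lit 0)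 (p (nat_lit 0x160014) (nat_lit 0) (p (nat_lit 0x60592) (nat_lit 0) (p (nat_lit 0x48512) (nat_lit 0) (p (nat_lit 0x50392) (nat_lit 0) (p (nat_lit 0x38312) (nat_lit 0) (p (nat_lit 0x40212) (nat_lit 0) (p (nat_lit 0x28192) (nat_lit 0) (p (nat_lit 0x30092) (nat_lit 0) (p (nat_lit 0x18012) (nat_lit 0) pn))))))))))))))))))))))) :=
  Cl.node (nat_lit 0xc1) (nat_lit 2) (by decide +kernel) (ClAll.succ (ClAll.succ ClAll.zero s21) n21)

def n32 : Cl (O (nat_lit 3)) (R (nat_lit 10449))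
    (p (nat_lit 0x119) (nat_lit 0) (p (nat_lit 0xd1) (nat_lit 0) (p (nat_lit 0x81) (nat_lit 0) (p (nat_lit 0x41) (nat_lit 1) (p (nat_lit 0x8a0b098a889a) (nat_lit 0) (p (nat_lit 0x98a890a081a) (nat_lit 0) (p (nat_lit 0x890a0888079a) (nat_lit 0) (p (nat_lit 0x8898807871a) (nat_lit 0) (p (nat_lit 0x80000800080788868a) (nat_lit 0) (p (nat_lit 0x80000800078706860a) (nat_lit 0) (p (nat_lit 0x8806878582) (nat_lit 0) (p (nat_lit 0x786070502) (nat_lit 0) (p (nat_lit 0x8705850482) (nat_lit 0) (p (nat_lit 0x685048402) (nat_lit 0) (p (nat_lit 0x160014) (nat_lit 0) (p (nat_lit 0x60592) (nat_lit 0) (p (nat_lit 0x48512) (nat_lit 0) (p (nat_lit 0x50392) (nat_lit 0) (p (nat_lit 0x38312) (nat_lit 0) (p (nat_lit 0x40212) (nat_lit 0) (p (nat_lit 0x28192) (nat_lit 0) (p (nat_lit 0x30092) (nat_lit 0) (p (nat_lit 0x18012) (nat_lit 0) pn))))))))))))))))))))))) :=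
  Cl.node (nat_lit 0x101) (nat_lit 2) (by decide +kernel) (ClAll.succ (ClAll.succ ClAll.zero s26) s27)

def n33 : Cl (O (nat_lit 3)) (R (nat_lit 10449))
    (p (nat_lit 0x119) (nat_lit 1) (p (nat_lit 0xd1) (nat_lit 0) (p (nat_lit 0x81) (nat_lit 0) (p (nat_lit 0x41) (nat_lit 1) (p (nat_lit 0x8a0b098a889a) (nat_lit 0) (p (nat_lit 0x98a890a081a) (nat_lit 0) (p (nat_lit 0x890a0888079a) (nat_lit 0) (p (nat_lit 0x8898807871a) (nat_lit 0) (p (nat_lit 0x80000800080788868a) (nat_lit 0) (p (nat_lit 0x80000800078706860a) (nat_lit 0) (p (nat_lit 0x8806878582) (nat_lit 0) (p (nat_lit 0x786070502) (nat_lit 0) (p (nat_lit 0x8705850482) (nat_lit 0) (p (nat_lit 0x685048402) (nat_lit 0) (p (nat_lit 0x160014) (nat_lit 0) (p (nat_lit 0x60592) (nat_lit 0) (p (nat_lit 0x48512) (nat_lit 0) (p (nat_lit 0x50392) (nat_lit 0) (p (nat_lit 0x38312) (nat_lit 0) (p (nat_lit 0x40212) (nat_lit 0) (p (nat_lit 0x28192)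 (nat_lit 0) (p (nat_lit 0x30092) (nat_lit 0) (p (nat_lit 0x18012) (nat_lit 0) pn))))))))))))))))))))))) :=
  Cl.node (nat_lit 0xc1) (nat_lit 2) (by decide +kernel) (ClAll.succ (ClAll.succ ClAll.zero n22) n23)

def n34 : Cl (O (nat_lit 3)) (R (nat_lit 10449))
    (p (nat_lit 0x111) (nat_lit 0) (p (nat_lit 0xd1) (nat_lit 1) (p (nat_lit 0x81) (nat_lit 0) (p (nat_lit 0x41) (nat_lit 1) (p (nat_lit 0x8a0b098a889a) (nat_lit 0) (p (nat_lit 0x98a890a081a) (nat_lit 0) (p (nat_lit 0x890a0888079a) (nat_lit 0) (p (nat_lit 0x8898807871a) (nat_lit 0) (p (nat_lit 0x80000800080788868a) (nat_lit 0) (p (nat_lit 0x80000800078706860a) (nat_lit 0) (p (nat_lit 0x8806878582) (nat_lit 0) (p (nat_lit 0x786070502) (nat_lit 0) (p (nat_lit 0x8705850482) (nat_lit 0) (p (nat_lit 0x685048402) (nat_lit 0) (p (nat_lit 0x160014) (nat_lit 0) (p (nat_lit 0x60592) (nat_lit 0) (p (nat_lit 0x48512) (nat_lit 0) (p (nat_lit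 0x50392) (nat_lit 0) (p (nat_lit 0x38312) (nat_lit 0) (p (nat_lit 0x40212) (nat_lit 0) (p (nat_lit 0x28192) (nat_lit 0) (p (nat_lit 0x30092) (nat_lit 0) (p (nat_lit 0x18012) (nat_lit 0) pn))))))))))))))))))))))) :=
  Cl.node (nat_lit 0x101) (nat_lit 2) (by decide +kernel) (ClAll.succ (ClAll.succ ClAll.zero s38) s39)

def n35 : Cl (O (nat_lit 3)) (R (nat_lit 10449))
    (p (nat_lit 0x119) (nat_lit 1) (p (nat_lit 0xc1) (nat_lit 0) (p (nat_lit 0x81) (nat_lit 1) (p (nat_lit 0x41) (nat_lit 1) (p (nat_lit 0x8a0b098a889a) (nat_lit 0) (p (nat_lit 0x98a890a081a) (nat_lit 0) (p (nat_lit 0x890a0888079a) (nat_lit 0) (p (nat_lit 0x8898807871a) (nat_lit 0) (p (nat_lit 0x80000800080788868a) (nat_lit 0) (p (nat_lit 0x80000800078706860a) (nat_lit 0) (p (nat_lit 0x8806878582) (nat_lit 0) (p (nat_lit 0x786070502) (nat_lit 0) (p (nat_lit 0x8705850482) (nat_lit 0) (p (nat_lit 0x685048402) (nat_lit 0)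 (p (nat_lit 0x160014) (nat_lit 0) (p (nat_lit 0x60592) (nat_lit 0) (p (nat_lit 0x48512) (nat_lit 0) (p (nat_lit 0x50392) (nat_lit 0) (p (nat_lit 0x38312) (nat_lit 0) (p (nat_lit 0x40212) (nat_lit 0) (p (nat_lit 0x28192) (nat_lit 0) (p (nat_lit 0x30092) (nat_lit 0) (p (nat_lit 0x18012) (nat_lit 0) pn))))))))))))))))))))))) :=
  Cl.node (nat_lit 0xc9) (nat_lit 2) (by decide +kernel) (ClAll.succ (ClAll.succ ClAll.zero n24) n25)

def n36 : Cl (O (nat_lit 3)) (R (nat_lit 10449))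
    (p (nat_lit 0xd1) (nat_lit 0) (p (nat_lit 0x89) (nat_lit 0) (p (nat_lit 0x41) (nat_lit 0) (p (nat_lit 0x8a0b098a889a) (nat_lit 0) (p (nat_lit 0x98a890a081a) (nat_lit 0) (p (nat_lit 0x890a0888079a) (nat_lit 0) (p (nat_lit 0x8898807871a) (nat_lit 0) (p (nat_lit 0x80000800080788868a) (nat_lit 0) (p (nat_lit 0x80000800078706860a) (nat_lit 0) (p (nat_lit 0x8806878582) (nat_lit 0) (p (nat_lit 0x786070502) (nat_lit 0) (p (nat_lit 0x8705850482) (nat_lit 0) (p (nat_lit 0x685048402) (nat_lit 0) (p (nat_lit 0x160014) (nat_lit 0) (p (nat_lit 0x60592) (nat_lit 0) (p (nat_lit 0x48512) (nat_lit 0) (p (nat_lit 0x50392) (nat_lit 0) (p (nat_lit 0x38312) (nat_lit 0) (p (nat_lit 0x40212) (nat_lit 0) (p (nat_lit 0x28192) (nat_lit 0) (p (nat_lit 0x30092) (nat_lit 0) (p (nat_lit 0x18012) (nat_lit 0) pn)))))))))))))))))))))) :=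
  Cl.node (nat_lit 0x119) (nat_lit 2) (by decide +kernel) (ClAll.succ (ClAll.succ ClAll.zero n26) n27)

def n37 : Cl (O (nat_lit 3)) (R (nat_lit 10449))
    (p (nat_lit 0xd1) (nat_lit 1) (p (nat_lit 0x89) (nat_lit 0) (p (nat_lit 0x41) (nat_lit 0) (p (nat_lit 0x8a0b098a889a) (nat_lit 0) (p (nat_lit 0x98a890a081a) (nat_lit 0) (p (nat_lit 0x890a0888079a) (nat_lit 0) (p (nat_lit 0x8898807871a) (nat_lit 0) (p (nat_lit 0x80000800080788868a) (nat_lit 0) (p (nat_lit 0x80000800078706860a) (nat_lit 0) (p (nat_lit 0x8806878582) (nat_lit 0) (p (nat_lit 0x786070502) (nat_lit 0) (p (nat_lit 0x8705850482) (nat_lit 0) (p (nat_lit 0x685048402) (nat_lit 0) (p (nat_lit 0x160014) (nat_lit 0) (p (nat_lit 0x60592) (nat_lit 0) (p (nat_lit 0x48512) (nat_lit 0) (p (nat_lit 0x50392) (nat_lit 0) (p (nat_lit 0x38312) (nat_lit 0) (p (nat_lit 0x40212) (nat_lit 0) (p (nat_lit 0x28192) (nat_lit 0) (p (nat_lit 0x30092)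 (nat_lit 0) (p (nat_lit 0x18012) (nat_lit 0) pn)))))))))))))))))))))) :=
  Cl.node (nat_lit 0x111) (nat_lit 2) (by decide +kernel) (ClAll.succ (ClAll.succ ClAll.zero n28) n29)

def n38 : Cl (O (nat_lit 3)) (R (nat_lit 10449))
    (p (nat_lit 0xc9) (nat_lit 0) (p (nat_lit 0x89) (nat_lit 1) (p (nat_lit 0x41) (nat_lit 0) (p (nat_lit 0x8a0b098a889a) (nat_lit 0) (p (nat_lit 0x98a890a081a) (nat_lit 0) (p (nat_lit 0x890a0888079a) (nat_lit 0) (p (nat_lit 0x8898807871a) (nat_lit 0) (p (nat_lit 0x80000800080788868a) (nat_lit 0) (p (nat_lit 0x80000800078706860a) (nat_lit 0) (p (nat_lit 0x8806878582) (nat_lit 0) (p (nat_lit 0x786070502) (nat_lit 0) (p (nat_lit 0x8705850482) (nat_lit 0) (p (nat_lit 0x685048402) (nat_lit 0) (p (nat_lit 0x160014) (nat_lit 0) (p (nat_lit 0x60592) (nat_lit 0) (p (nat_lit 0x48512) (nat_lit 0) (p (nat_lit 0x50392) (nat_lit 0) (p (nat_lit 0x38312) (nat_lit 0) (p (nat_lit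 0x40212) (nat_lit 0) (p (nat_lit 0x28192) (nat_lit 0) (p (nat_lit 0x30092) (nat_lit 0) (p (nat_lit 0x18012) (nat_lit 0) pn)))))))))))))))))))))) :=
  Cl.node (nat_lit 0x119) (nat_lit 2) (by decide +kernel) (ClAll.succ (ClAll.succ ClAll.zero n30) n31)

def n39 : Cl (O (nat_lit 3)) (R (nat_lit 10449))
    (p (nat_lit 0xd1) (nat_lit 0) (p (nat_lit 0x81) (nat_lit 0) (p (nat_lit 0x41) (nat_lit 1) (p (nat_lit 0x8a0b098a889a) (nat_lit 0) (p (nat_lit 0x98a890a081a) (nat_lit 0) (p (nat_lit 0x890a0888079a) (nat_lit 0) (p (nat_lit 0x8898807871a) (nat_lit 0) (p (nat_lit 0x80000800080788868a) (nat_lit 0) (p (nat_lit 0x80000800078706860a) (nat_lit 0) (p (nat_lit 0x8806878582) (nat_lit 0) (p (nat_lit 0x786070502) (nat_lit 0) (p (nat_lit 0x8705850482) (nat_lit 0) (p (nat_lit 0x685048402) (nat_lit 0) (p (nat_lit 0x160014) (nat_lit 0) (p (nat_lit 0x60592) (nat_lit 0) (p (nat_lit 0x48512) (nat_lit 0)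 (p (nat_lit 0x50392) (nat_lit 0) (p (nat_lit 0x38312) (nat_lit 0) (p (nat_lit 0x40212) (nat_lit 0) (p (nat_lit 0x28192) (nat_lit 0) (p (nat_lit 0x30092) (nat_lit 0) (p (nat_lit 0x18012) (nat_lit 0) pn)))))))))))))))))))))) :=
  Cl.node (nat_lit 0x119) (nat_lit 2) (by decide +kernel) (ClAll.succ (ClAll.succ ClAll.zero n32) n33)

def n40 : Cl (O (nat_lit 3)) (R (nat_lit 10449))
    (p (nat_lit 0xd1) (nat_lit 1) (p (nat_lit 0x81) (nat_lit 0) (p (nat_lit 0x41) (nat_lit 1) (p (nat_lit 0x8a0b098a889a) (nat_lit 0) (p (nat_lit 0x98a890a081a) (nat_lit 0) (p (nat_lit 0x890a0888079a) (nat_lit 0) (p (nat_lit 0x8898807871a) (nat_lit 0) (p (nat_lit 0x80000800080788868a) (nat_lit 0) (p (nat_lit 0x80000800078706860a) (nat_lit 0) (p (nat_lit 0x8806878582) (nat_lit 0) (p (nat_lit 0x786070502) (nat_lit 0) (p (nat_lit 0x8705850482) (nat_lit 0) (p (nat_lit 0x685048402) (nat_lit 0) (p (nat_lit 0x160014)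 (nat_lit 0) (p (nat_lit 0x60592) (nat_lit 0) (p (nat_lit 0x48512) (nat_lit 0) (p (nat_lit 0x50392) (nat_lit 0) (p (nat_lit 0x38312) (nat_lit 0) (p (nat_lit 0x40212) (nat_lit 0) (p (nat_lit 0x28192) (nat_lit 0) (p (nat_lit 0x30092) (nat_lit 0) (p (nat_lit 0x18012) (nat_lit 0) pn)))))))))))))))))))))) :=
  Cl.node (nat_lit 0x111) (nat_lit 2) (by decide +kernel) (ClAll.succ (ClAll.succ ClAll.zero n34) s40)

def n41 : Cl (O (nat_lit 3)) (R (nat_lit 10449))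
    (p (nat_lit 0xc1) (nat_lit 0) (p (nat_lit 0x81) (nat_lit 1) (p (nat_lit 0x41) (nat_lit 1) (p (nat_lit 0x8a0b098a889a) (nat_lit 0) (p (nat_lit 0x98a890a081a) (nat_lit 0) (p (nat_lit 0x890a0888079a) (nat_lit 0) (p (nat_lit 0x8898807871a) (nat_lit 0) (p (nat_lit 0x80000800080788868a) (nat_lit 0) (p (nat_lit 0x80000800078706860a) (nat_lit 0) (p (nat_lit 0x8806878582) (nat_lit 0) (p (nat_lit 0x786070502) (nat_lit 0) (p (nat_lit 0x8705850482) (nat_lit 0) (p (nat_lit 0x685048402) (nat_lit 0) (p (nat_lit 0x160014) (nat_lit 0) (p (nat_lit 0x60592) (nat_lit 0) (p (nat_lit 0x48512) (nat_lit 0) (p (nat_lit 0x50392) (nat_lit 0) (p (nat_lit 0x38312) (nat_lit 0) (p (nat_lit 0x40212) (nat_lit 0) (p (nat_lit 0x28192) (nat_lit 0) (p (nat_lit 0x30092) (nat_lit 0) (p (nat_lit 0x18012) (nat_lit 0) pn)))))))))))))))))))))) :=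
  Cl.node (nat_lit 0x119) (nat_lit 2) (by decide +kernel) (ClAll.succ (ClAll.succ ClAll.zero s41) n35)

def n42 : Cl (O (nat_lit 3)) (R (nat_lit 10449))
    (p (nat_lit 0x89) (nat_lit 0) (p (nat_lit 0x41) (nat_lit 0) (p (nat_lit 0x8a0b098a889a) (nat_lit 0) (p (nat_lit 0x98a890a081a) (nat_lit 0) (p (nat_lit 0x890a0888079a) (nat_lit 0) (p (nat_lit 0x8898807871a) (nat_lit 0) (p (nat_lit 0x80000800080788868a) (nat_lit 0) (p (nat_lit 0x80000800078706860a) (nat_lit 0) (p (nat_lit 0x8806878582) (nat_lit 0) (p (nat_lit 0x786070502) (nat_lit 0) (p (nat_lit 0x8705850482) (nat_lit 0) (p (nat_lit 0x685048402) (nat_lit 0) (p (nat_lit 0x160014) (nat_lit 0) (p (nat_lit 0x60592) (nat_lit 0) (p (nat_lit 0x48512) (nat_lit 0) (p (nat_lit 0x50392) (nat_lit 0) (p (nat_lit 0x38312) (nat_lit 0) (p (nat_lit 0x40212) (nat_lit 0) (p (nat_lit 0x28192) (nat_lit 0) (p (nat_lit 0x30092) (nat_lit 0) (p (nat_lit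 0x18012) (nat_lit 0) pn))))))))))))))))))))) :=
  Cl.node (nat_lit 0xd1) (nat_lit 2) (by decide +kernel) (ClAll.succ (ClAll.succ ClAll.zero n36) n37)

def n43 : Cl (O (nat_lit 3)) (R (nat_lit 10449))
    (p (nat_lit 0x89) (nat_lit 1) (p (nat_lit 0x41) (nat_lit 0) (p (nat_lit 0x8a0b098a889a) (nat_lit 0) (p (nat_lit 0x98a890a081a) (nat_lit 0) (p (nat_lit 0x890a0888079a) (nat_lit 0) (p (nat_lit 0x8898807871a) (nat_lit 0) (p (nat_lit 0x80000800080788868a) (nat_lit 0) (p (nat_lit 0x80000800078706860a) (nat_lit 0) (p (nat_lit 0x8806878582) (nat_lit 0) (p (nat_lit 0x786070502) (nat_lit 0) (p (nat_lit 0x8705850482) (nat_lit 0) (p (nat_lit 0x685048402) (nat_lit 0) (p (nat_lit 0x160014) (nat_lit 0) (p (nat_lit 0x60592) (nat_lit 0) (p (nat_lit 0x48512) (nat_lit 0) (p (nat_lit 0x50392) (nat_lit 0) (p (nat_lit 0x38312) (nat_lit 0) (p (nat_lit 0x40212) (nat_lit 0) (p (nat_lit 0x28192) (nat_lit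 0) (p (nat_lit 0x30092) (nat_lit 0) (p (nat_lit 0x18012) (nat_lit 0) pn))))))))))))))))))))) :=
  Cl.node (nat_lit 0xc9) (nat_lit 2) (by decide +kernel) (ClAll.succ (ClAll.succ ClAll.zero n38) s25)

def n44 : Cl (O (nat_lit 3)) (R (nat_lit 10449))
    (p (nat_lit 0x81) (nat_lit 0) (p (nat_lit 0x41) (nat_lit 1) (p (nat_lit 0x8a0b098a889a) (nat_lit 0) (p (nat_lit 0x98a890a081a) (nat_lit 0) (p (nat_lit 0x890a0888079a) (nat_lit 0) (p (nat_lit 0x8898807871a) (nat_lit 0) (p (nat_lit 0x80000800080788868a) (nat_lit 0) (p (nat_lit 0x80000800078706860a) (nat_lit 0) (p (nat_lit 0x8806878582) (nat_lit 0) (p (nat_lit 0x786070502) (nat_lit 0) (p (nat_lit 0x8705850482) (nat_lit 0) (p (nat_lit 0x685048402) (nat_lit 0) (p (nat_lit 0x160014) (nat_lit 0) (p (nat_lit 0x60592) (nat_lit 0) (p (nat_lit 0x48512) (nat_lit 0) (p (nat_lit 0x50392) (nat_lit 0) (p (nat_lit 0x38312) (nat_lit 0) (p (nat_lit 0x40212)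 (nat_lit 0) (p (nat_lit 0x28192) (nat_lit 0) (p (nat_lit 0x30092) (nat_lit 0) (p (nat_lit 0x18012) (nat_lit 0) pn))))))))))))))))))))) :=
  Cl.node (nat_lit 0xd1) (nat_lit 2) (by decide +kernel) (ClAll.succ (ClAll.succ ClAll.zero n39) n40)

def n45 : Cl (O (nat_lit 3)) (R (nat_lit 10449))
    (p (nat_lit 0x81) (nat_lit 1) (p (nat_lit 0x41) (nat_lit 1) (p (nat_lit 0x8a0b098a889a) (nat_lit 0) (p (nat_lit 0x98a890a081a) (nat_lit 0) (p (nat_lit 0x890a0888079a) (nat_lit 0) (p (nat_lit 0x8898807871a) (nat_lit 0) (p (nat_lit 0x80000800080788868a) (nat_lit 0) (p (nat_lit 0x80000800078706860a) (nat_lit 0) (p (nat_lit 0x8806878582) (nat_lit 0) (p (nat_lit 0x786070502) (nat_lit 0) (p (nat_lit 0x8705850482) (nat_lit 0) (p (nat_lit 0x685048402) (nat_lit 0) (p (nat_lit 0x160014) (nat_lit 0) (p (nat_lit 0x60592) (nat_lit 0) (p (nat_lit 0x48512) (nat_lit 0) (p (nat_lit 0x50392) (nat_lit 0) (p (nat_lit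 0x38312) (nat_lit 0) (p (nat_lit 0x40212) (nat_lit 0) (p (nat_lit 0x28192) (nat_lit 0) (p (nat_lit 0x30092) (nat_lit 0) (p (nat_lit 0x18012) (nat_lit 0) pn))))))))))))))))))))) :=
  Cl.node (nat_lit 0xc1) (nat_lit 2) (by decide +kernel) (ClAll.succ (ClAll.succ ClAll.zero n41) s49)

def n46 : Cl (O (nat_lit 3)) (R (nat_lit 10449))
    (p (nat_lit 0x41) (nat_lit 0) (p (nat_lit 0x8a0b098a889a) (nat_lit 0) (p (nat_lit 0x98a890a081a) (nat_lit 0) (p (nat_lit 0x890a0888079a) (nat_lit 0) (p (nat_lit 0x8898807871a) (nat_lit 0) (p (nat_lit 0x80000800080788868a) (nat_lit 0) (p (nat_lit 0x80000800078706860a) (nat_lit 0) (p (nat_lit 0x8806878582) (nat_lit 0) (p (nat_lit 0x786070502) (nat_lit 0) (p (nat_lit 0x8705850482) (nat_lit 0) (p (nat_lit 0x685048402) (nat_lit 0) (p (nat_lit 0x160014) (nat_lit 0) (p (nat_lit 0x60592) (nat_lit 0) (p (nat_lit 0x48512) (nat_lit 0) (p (nat_lit 0x50392) (nat_lit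 0) (p (nat_lit 0x38312) (nat_lit 0) (p (nat_lit 0x40212) (nat_lit 0) (p (nat_lit 0x28192) (nat_lit 0) (p (nat_lit 0x30092) (nat_lit 0) (p (nat_lit 0x18012) (nat_lit 0) pn)))))))))))))))))))) :=
  Cl.node (nat_lit 0x89) (nat_lit 2) (by decide +kernel) (ClAll.succ (ClAll.succ ClAll.zero n42) n43)

def n47 : Cl (O (nat_lit 3)) (R (nat_lit 10449))
    (p (nat_lit 0x41) (nat_lit 1) (p (nat_lit 0x8a0b098a889a) (nat_lit 0) (p (nat_lit 0x98a890a081a) (nat_lit 0) (p (nat_lit 0x890a0888079a) (nat_lit 0) (p (nat_lit 0x8898807871a) (nat_lit 0) (p (nat_lit 0x80000800080788868a) (nat_lit 0) (p (nat_lit 0x80000800078706860a) (nat_lit 0) (p (nat_lit 0x8806878582) (nat_lit 0) (p (nat_lit 0x786070502) (nat_lit 0) (p (nat_lit 0x8705850482) (nat_lit 0) (p (nat_lit 0x685048402) (nat_lit 0) (p (nat_lit 0x160014) (nat_lit 0) (p (nat_lit 0x60592) (nat_lit 0) (p (nat_lit 0x48512) (nat_lit 0) (p (nat_lit 0x50392)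 (nat_lit 0) (p (nat_lit 0x38312) (nat_lit 0) (p (nat_lit 0x40212) (nat_lit 0) (p (nat_lit 0x28192) (nat_lit 0) (p (nat_lit 0x30092) (nat_lit 0) (p (nat_lit 0x18012) (nat_lit 0) pn)))))))))))))))))))) :=
  Cl.node (nat_lit 0x81) (nat_lit 2) (by decide +kernel) (ClAll.succ (ClAll.succ ClAll.zero n44) n45)

def n48 : Cl (O (nat_lit 3)) (R (nat_lit 10449))
    (p (nat_lit 0x8a0b098a889a) (nat_lit 0) (p (nat_lit 0x98a890a081a) (nat_lit 0) (p (nat_lit 0x890a0888079a) (nat_lit 0) (p (nat_lit 0x8898807871a) (nat_lit 0) (p (nat_lit 0x80000800080788868a) (nat_lit 0) (p (nat_lit 0x80000800078706860a) (nat_lit 0) (p (nat_lit 0x8806878582) (nat_lit 0) (p (nat_lit 0x786070502) (nat_lit 0) (p (nat_lit 0x8705850482) (nat_lit 0) (p (nat_lit 0x685048402) (nat_lit 0) (p (nat_lit 0x160014) (nat_lit 0) (p (nat_lit 0x60592) (nat_lit 0) (p (nat_lit 0x48512) (nat_lit 0) (p (nat_lit 0x50392) (nat_lit 0) (p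 (nat_lit 0x38312) (nat_lit 0) (p (nat_lit 0x40212) (nat_lit 0) (p (nat_lit 0x28192) (nat_lit 0) (p (nat_lit 0x30092) (nat_lit 0) (p (nat_lit 0x18012) (nat_lit 0) pn))))))))))))))))))) :=
  Cl.node (nat_lit 0x41) (nat_lit 2) (by decide +kernel) (ClAll.succ (ClAll.succ ClAll.zero n46) n47)

def n49 : Cl (O (nat_lit 3)) (R (nat_lit 10449))
    (p (nat_lit 0x98a890a081a) (nat_lit 0) (p (nat_lit 0x890a0888079a) (nat_lit 0) (p (nat_lit 0x8898807871a) (nat_lit 0) (p (nat_lit 0x80000800080788868a) (nat_lit 0) (p (nat_lit 0x80000800078706860a) (nat_lit 0) (p (nat_lit 0x8806878582) (nat_lit 0) (p (nat_lit 0x786070502) (nat_lit 0) (p (nat_lit 0x8705850482) (nat_lit 0) (p (nat_lit 0x685048402) (nat_lit 0) (p (nat_lit 0x160014) (nat_lit 0) (p (nat_lit 0x60592) (nat_lit 0) (p (nat_lit 0x48512) (nat_lit 0) (p (nat_lit 0x50392) (nat_lit 0) (p (nat_lit 0x38312) (nat_lit 0) (p (nat_lit 0x40212) (nat_lit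 0) (p (nat_lit 0x28192) (nat_lit 0) (p (nat_lit 0x30092) (nat_lit 0) (p (nat_lit 0x18012) (nat_lit 0) pn)))))))))))))))))) :=
  Cl.node (nat_lit 0x8a0b098a889a) (nat_lit 1) (by decide +kernel) (ClAll.succ ClAll.zero n48)

def n50 : Cl (O (nat_lit 3)) (R (nat_lit 10449))
    (p (nat_lit 0x890a0888079a) (nat_lit 0) (p (nat_lit 0x8898807871a) (nat_lit 0) (p (nat_lit 0x80000800080788868a) (nat_lit 0) (p (nat_lit 0x80000800078706860a) (nat_lit 0) (p (nat_lit 0x8806878582) (nat_lit 0) (p (nat_lit 0x786070502) (nat_lit 0) (p (nat_lit 0x8705850482) (nat_lit 0) (p (nat_lit 0x685048402) (nat_lit 0) (p (nat_lit 0x160014) (nat_lit 0) (p (nat_lit 0x60592) (nat_lit 0) (p (nat_lit 0x48512) (nat_lit 0) (p (nat_lit 0x50392) (nat_lit 0) (p (nat_lit 0x38312) (nat_lit 0) (p (nat_lit 0x40212) (nat_lit 0) (p (nat_lit 0x28192) (nat_lit 0) (p (nat_lit 0x30092) (nat_lit 0) (p (nat_lit 0x18012) (nat_lit 0)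 pn))))))))))))))))) :=
  Cl.node (nat_lit 0x98a890a081a) (nat_lit 1) (by decide +kernel) (ClAll.succ ClAll.zero n49)

def n51 : Cl (O (nat_lit 3)) (R (nat_lit 10449))
    (p (nat_lit 0x8898807871a) (nat_lit 0) (p (nat_lit 0x80000800080788868a) (nat_lit 0) (p (nat_lit 0x80000800078706860a) (nat_lit 0) (p (nat_lit 0x8806878582) (nat_lit 0) (p (nat_lit 0x786070502) (nat_lit 0) (p (nat_lit 0x8705850482) (nat_lit 0) (p (nat_lit 0x685048402) (nat_lit 0) (p (nat_lit 0x160014) (nat_lit 0) (p (nat_lit 0x60592) (nat_lit 0) (p (nat_lit 0x48512) (nat_lit 0) (p (nat_lit 0x50392) (nat_lit 0) (p (nat_lit 0x38312) (nat_lit 0) (p (nat_lit 0x40212) (nat_lit 0) (p (nat_lit 0x28192) (nat_lit 0) (p (nat_lit 0x30092) (nat_lit 0) (p (nat_lit 0x18012) (nat_lit 0) pn)))))))))))))))) :=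
  Cl.node (nat_lit 0x890a0888079a) (nat_lit 1) (by decide +kernel) (ClAll.succ ClAll.zero n50)

def n52 : Cl (O (nat_lit 3)) (R (nat_lit 10449))
    (p (nat_lit 0x80000800080788868a) (nat_lit 0) (p (nat_lit 0x80000800078706860a) (nat_lit 0) (p (nat_lit 0x8806878582) (nat_lit 0) (p (nat_lit 0x786070502) (nat_lit 0) (p (nat_lit 0x8705850482) (nat_lit 0) (p (nat_lit 0x685048402) (nat_lit 0) (p (nat_lit 0x160014) (nat_lit 0) (p (nat_lit 0x60592) (nat_lit 0) (p (nat_lit 0x48512) (nat_lit 0) (p (nat_lit 0x50392) (nat_lit 0) (p (nat_lit 0x38312) (nat_lit 0) (p (nat_lit 0x40212) (nat_lit 0) (p (nat_lit 0x28192) (nat_lit 0) (p (nat_lit 0x30092) (nat_lit 0) (p (nat_lit 0x18012) (nat_lit 0) pn))))))))))))))) :=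
  Cl.node (nat_lit 0x8898807871a) (nat_lit 1) (by decide +kernel) (ClAll.succ ClAll.zero n51)

def n53 : Cl (O (nat_lit 3)) (R (nat_lit 10449))
    (p (nat_lit 0x80000800078706860a) (nat_lit 0) (p (nat_lit 0x8806878582) (nat_lit 0) (p (nat_lit 0x786070502) (nat_lit 0) (p (nat_lit 0x8705850482) (nat_lit 0) (p (nat_lit 0x685048402) (nat_lit 0) (p (nat_lit 0x160014) (nat_lit 0) (p (nat_lit 0x60592) (nat_lit 0) (p (nat_lit 0x48512) (nat_lit 0) (p (nat_lit 0x50392) (nat_lit 0) (p (nat_lit 0x38312) (nat_lit 0) (p (nat_lit 0x40212) (nat_lit 0) (p (nat_lit 0x28192) (nat_lit 0) (p (nat_lit 0x30092) (nat_lit 0) (p (nat_lit 0x18012) (nat_lit 0) pn)))))))))))))) :=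
  Cl.node (nat_lit 0x80000800080788868a) (nat_lit 1) (by decide +kernel) (ClAll.succ ClAll.zero n52)

def n54 : Cl (O (nat_lit 3)) (R (nat_lit 10449))
    (p (nat_lit 0x8806878582) (nat_lit 0) (p (nat_lit 0x786070502) (nat_lit 0) (p (nat_lit 0x8705850482) (nat_lit 0) (p (nat_lit 0x685048402) (nat_lit 0) (p (nat_lit 0x160014) (nat_lit 0) (p (nat_lit 0x60592) (nat_lit 0) (p (nat_lit 0x48512) (nat_lit 0) (p (nat_lit 0x50392) (nat_lit 0) (p (nat_lit 0x38312) (nat_lit 0) (p (nat_lit 0x40212) (nat_lit 0) (p (nat_lit 0x28192) (nat_lit 0) (p (nat_lit 0x30092) (nat_lit 0) (p (nat_lit 0x18012) (nat_lit 0) pn))))))))))))) :=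
  Cl.node (nat_lit 0x80000800078706860a) (nat_lit 1) (by decide +kernel) (ClAll.succ ClAll.zero n53)

def n55 : Cl (O (nat_lit 3)) (R (nat_lit 10449))
    (p (nat_lit 0x786070502) (nat_lit 0) (p (nat_lit 0x8705850482) (nat_lit 0) (p (nat_lit 0x685048402) (nat_lit 0) (p (nat_lit 0x160014) (nat_lit 0) (p (nat_lit 0x60592) (nat_lit 0) (p (nat_lit 0x48512) (nat_lit 0) (p (nat_lit 0x50392) (nat_lit 0) (p (nat_lit 0x38312) (nat_lit 0) (p (nat_lit 0x40212) (nat_lit 0) (p (nat_lit 0x28192) (nat_lit 0) (p (nat_lit 0x30092) (nat_lit 0) (p (nat_lit 0x18012) (nat_lit 0) pn)))))))))))) :=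
  Cl.node (nat_lit 0x8806878582) (nat_lit 1) (by decide +kernel) (ClAll.succ ClAll.zero n54)

def n56 : Cl (O (nat_lit 3)) (R (nat_lit 10449))
    (p (nat_lit 0x8705850482) (nat_lit 0) (p (nat_lit 0x685048402) (nat_lit 0) (p (nat_lit 0x160014) (nat_lit 0) (p (nat_lit 0x60592) (nat_lit 0) (p (nat_lit 0x48512) (nat_lit 0) (p (nat_lit 0x50392) (nat_lit 0) (p (nat_lit 0x38312) (nat_lit 0) (p (nat_lit 0x40212) (nat_lit 0) (p (nat_lit 0x28192) (nat_lit 0) (p (nat_lit 0x30092) (nat_lit 0) (p (nat_lit 0x18012) (nat_lit 0) pn))))))))))) :=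
  Cl.node (nat_lit 0x786070502) (nat_lit 1) (by decide +kernel) (ClAll.succ ClAll.zero n55)

def n57 : Cl (O (nat_lit 3)) (R (nat_lit 10449))
    (p (nat_lit 0x685048402) (nat_lit 0) (p (nat_lit 0x160014) (nat_lit 0) (p (nat_lit 0x60592) (nat_lit 0) (p (nat_lit 0x48512) (nat_lit 0) (p (nat_lit 0x50392) (nat_lit 0) (p (nat_lit 0x38312) (nat_lit 0) (p (nat_lit 0x40212) (nat_lit 0) (p (nat_lit 0x28192) (nat_lit 0) (p (nat_lit 0x30092) (nat_lit 0) (p (nat_lit 0x18012) (nat_lit 0) pn)))))))))) :=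
  Cl.node (nat_lit 0x8705850482) (nat_lit 1) (by decide +kernel) (ClAll.succ ClAll.zero n56)

def n58 : Cl (O (nat_lit 3)) (R (nat_lit 10449))
    (p (nat_lit 0x160014) (nat_lit 0) (p (nat_lit 0x60592) (nat_lit 0) (p (nat_lit 0x48512) (nat_lit 0) (p (nat_lit 0x50392) (nat_lit 0) (p (nat_lit 0x38312) (nat_lit 0) (p (nat_lit 0x40212) (nat_lit 0) (p (nat_lit 0x28192) (nat_lit 0) (p (nat_lit 0x30092) (nat_lit 0) (p (nat_lit 0x18012) (nat_lit 0) pn))))))))) :=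
  Cl.node (nat_lit 0x685048402) (nat_lit 1) (by decide +kernel) (ClAll.succ ClAll.zero n57)

def n59 : Cl (O (nat_lit 3)) (R (nat_lit 10449))
    (p (nat_lit 0x60592) (nat_lit 0) (p (nat_lit 0x48512) (nat_lit 0) (p (nat_lit 0x50392) (nat_lit 0) (p (nat_lit 0x38312) (nat_lit 0) (p (nat_lit 0x40212) (nat_lit 0) (p (nat_lit 0x28192) (nat_lit 0) (p (nat_lit 0x30092) (nat_lit 0) (p (nat_lit 0x18012) (nat_lit 0) pn)))))))) :=
  Cl.node (nat_lit 0x160014) (nat_lit 2) (by decide +kernel) (ClAll.succ (ClAll.succ ClAll.zero n58) s50)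

def n60 : Cl (O (nat_lit 3)) (R (nat_lit 10449))
    (p (nat_lit 0x48512) (nat_lit 0) (p (nat_lit 0x50392) (nat_lit 0) (p (nat_lit 0x38312) (nat_lit 0) (p (nat_lit 0x40212) (nat_lit 0) (p (nat_lit 0x28192) (nat_lit 0) (p (nat_lit 0x30092) (nat_lit 0) (p (nat_lit 0x18012) (nat_lit 0) pn))))))) :=
  Cl.node (nat_lit 0x60592) (nat_lit 1) (by decide +kernel) (ClAll.succ ClAll.zero n59)

def n61 : Cl (O (nat_lit 3)) (R (nat_lit 10449))
    (p (nat_lit 0x50392) (nat_lit 0) (p (nat_lit 0x38312) (nat_lit 0) (p (nat_lit 0x40212) (nat_lit 0) (p (nat_lit 0x28192) (nat_lit 0) (p (nat_lit 0x30092) (nat_lit 0) (p (nat_lit 0x18012) (nat_lit 0) pn)))))) :=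
  Cl.node (nat_lit 0x48512) (nat_lit 1) (by decide +kernel) (ClAll.succ ClAll.zero n60)

def n62 : Cl (O (nat_lit 3)) (R (nat_lit 10449))
    (p (nat_lit 0x38312) (nat_lit 0) (p (nat_lit 0x40212) (nat_lit 0) (p (nat_lit 0x28192) (nat_lit 0) (p (nat_lit 0x30092) (nat_lit 0) (p (nat_lit 0x18012) (nat_lit 0) pn))))) :=
  Cl.node (nat_lit 0x50392) (nat_lit 1) (by decide +kernel) (ClAll.succ ClAll.zero n61)

def n63 : Cl (O (nat_lit 3)) (R (nat_lit 10449))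
    (p (nat_lit 0x40212) (nat_lit 0) (p (nat_lit 0x28192) (nat_lit 0) (p (nat_lit 0x30092) (nat_lit 0) (p (nat_lit 0x18012) (nat_lit 0) pn)))) :=
  Cl.node (nat_lit 0x38312) (nat_lit 1) (by decide +kernel) (ClAll.succ ClAll.zero n62)

def n64 : Cl (O (nat_lit 3)) (R (nat_lit 10449))
    (p (nat_lit 0x28192) (nat_lit 0) (p (nat_lit 0x30092) (nat_lit 0) (p (nat_lit 0x18012) (nat_lit 0) pn))) :=
  Cl.node (nat_lit 0x40212) (nat_lit 1) (by decide +kernel) (ClAll.succ ClAll.zero n63)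

def n65 : Cl (O (nat_lit 3)) (R (nat_lit 10449))
    (p (nat_lit 0x30092) (nat_lit 0) (p (nat_lit 0x18012) (nat_lit 0) pn)) :=
  Cl.node (nat_lit 0x28192) (nat_lit 1) (by decide +kernel) (ClAll.succ ClAll.zero n64)

def n66 : Cl (O (nat_lit 3)) (R (nat_lit 10449))
    (p (nat_lit 0x18012) (nat_lit 0) pn) :=
  Cl.node (nat_lit 0x30092) (nat_lit 1) (by decide +kernel) (ClAll.succ ClAll.zero n65)

def n67 : Cl (O (nat_lit 3)) (R (nat_lit 10449))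
    pn :=
  Cl.node (nat_lit 0x18012) (nat_lit 1) (by decide +kernel) (ClAll.succ ClAll.zero n66)

theorem top : Cl (O (nat_lit 3)) (R (nat_lit 10449)) pn := n67

end Pool.Agent.Gen.F5.X123D2Cm3
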